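import Pool.Agent.H92.DN.F3

set_option autoImplicit false

/-!
D-neofields of all orders `r ≡ 4 (mod 6)` with `r ≢ 1 (mod 9)`.

With `m = r - 1 = 6 n + 3` the underlying sequence (`1 + x ^ (K + i) = x ^ (c i - c')` for
`0 ≤ i ≤ m - 2`, constants `K`, `c'`) consists of two periodic blocks with period three:
`c (3 t) = 12 t`, `c (3 t + 1) = -6 t - 8`, `c (3 t + 2) = 6 t + 4` for indices below `3 n + 1`, and
`c (3 n + 1 + 3 t) = -6 t - 4`, `c (3 n + 2 + 3 t) = 12 t + 6`, `c (3 n + 3 + 3 t) = 6 t + 2`.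
-/

namespace Pool.Agent.Results.MP_845d9b_co.FourModSix

open Pool.Agent.H92.DN

/-- the orders `36 k + 22 ≡ 4 (mod 6)` are not prime powers -/
theorem not_primePow (k : ℕ) : ¬ IsPrimePow (36 * k + 22) := by
  rintro ⟨p, a, hp, ha, hpa⟩
  have hp' := Nat.prime_iff.2 hp
  have h2 : 2 ∣ p ^ a := by rw [hpa]; omega
  have hp2 : p = 2 :=
    ((Nat.prime_dvd_prime_iff_eq Nat.prime_two hp').1
      (Nat.prime_two.dvd_of_dvd_pow h2)).symm
  subst hp2
  rcases a with _ | _ | a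
  · omega
  · omega
  · have : 2 ^ (a + 2) = 4 * 2 ^ a := by ring
    omega

/-- For every `r ≡ 4 (mod 6)` with `r ≢ 1 (mod 9)` there is a D-neofield of order `r`; infinitely
many of these orders (for example all `36 k + 22`) are not prime powers. -/
theorem result : (∀ r : ℕ, r % 6 = 4 → r % 9 ≠ 1 → DNeofieldOrder r) ∧
    (∀ k : ℕ, (36 * k + 22) % 6 = 4 ∧ (36 * k + 22) % 9 ≠ 1 ∧ ¬ IsPrimePow (36 * k + 22)) := by
  refine ⟨?_, fun k => ⟨by omega, by omega, not_primePow k⟩⟩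
  intro r hr h9
  obtain ⟨n, rfl⟩ : ∃ n, r = 6 * n + 4 := ⟨r / 6, by omega⟩
  exact F3.order n (by omega)

end Pool.Agent.Results.MP_845d9b_co.FourModSix
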