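import Pool.Agent.H92.DN.Pow2Templates

set_option autoImplicit false

/-!
D-neofields of all orders `r ≡ 1 (mod 8)` with `r ≢ 1 (mod 3)` and (`r ≡ 1 (mod 16)` or
`r ≢ 1 (mod 5)`).

Write `r - 1 = N p` with `N = 2 M` a power of two and `p` odd.  The underlying sequence
(`1 + x ^ (K + i) = x ^ (c i - c')` for `0 ≤ i ≤ r - 3`, constants `K`, `c'`) is
`c (j + N t) = j (j + 3) / 2 + M (3 t - j - s_j (2 t + 1) + (j + s_j) p)` for `0 ≤ j < N`, where
`s_0, …, s_{N-1}` is a fixed template, see `Pool.Agent.H92.DN.Pow2.Good`.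
-/

namespace Pool.Agent.Results.MP_845d9b_co.OneModEight

open Pool.Agent.H92.DN

/-- the numbers `33 (48 k + 1)` are not prime powers -/
theorem not_primePow (k : ℕ) : ¬ IsPrimePow (33 * (48 * k + 1)) := by
  rintro ⟨p, a, hp, ha, hpa⟩
  have hp' := Nat.prime_iff.2 hp
  have h3 : 3 ∣ p ^ a := by rw [hpa]; omega
  have h11 : 11 ∣ p ^ a := by rw [hpa]; omega
  have e3 : p = 3 :=
    ((Nat.prime_dvd_prime_iff_eq Nat.prime_three hp').1
      (Nat.prime_three.dvd_of_dvd_pow h3)).symm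
  have e11 : p = 11 :=
    ((Nat.prime_dvd_prime_iff_eq (by norm_num) hp').1
      ((by norm_num : Nat.Prime 11).dvd_of_dvd_pow h11)).symm
  omega

/-- For every `r > 1` with `r ≡ 1 (mod 8)`, `r ≢ 1 (mod 3)` and (`r ≡ 1 (mod 16)` or
`r ≢ 1 (mod 5)`) there is a D-neofield of order `r`; infinitely many of these orders (for example
all `33 (48 k + 1)`) are not prime powers. -/
theorem result : (∀ r : ℕ, 1 < r → r % 8 = 1 → r % 3 ≠ 1 → (r % 16 = 1 ∨ r % 5 ≠ 1) →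
      DNeofieldOrder r) ∧
    (∀ k : ℕ, (33 * (48 * k + 1)) % 16 = 1 ∧ (33 * (48 * k + 1)) % 3 ≠ 1 ∧
      ¬ IsPrimePow (33 * (48 * k + 1))) := by
  refine ⟨?_, fun k => ⟨by omega, by omega, not_primePow k⟩⟩
  intro r hr h8 h3 h5
  obtain ⟨m, rfl⟩ : ∃ m, r = m + 1 := ⟨r - 1, by omega⟩
  obtain ⟨k, p, hp, rfl⟩ := Nat.exists_eq_two_pow_mul_odd (n := m) (by omega)
  have hp2 : p % 2 = 1 := Nat.odd_iff.1 hp
  have hp3 : p % 3 ≠ 0 := by
    intro h
    have : 3 ∣ 2 ^ k * p := Dvd.dvd.mul_left (Nat.dvd_of_mod_eq_zero h) _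
    omega
  rcases Nat.lt_or_ge k 4 with hk | hk
  · interval_cases k
    · omega
    · omega
    · omega
    · refine Pow2.order_eight p hp2 hp3 ?_
      omega
  · exact Pow2.order_sixteen k p hk hp2 hp3

end Pool.Agent.Results.MP_845d9b_co.OneModEight
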